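import Mathlib
import Pool.Graph.R_seed8.H884R3.MsConj

/-!
# Elementary equivalence of rational functions of prime degree is conjugacy

Lines 404-470 of the library file `MsConj`, for every prime degree.
-/

set_option autoImplicit false

open Polynomial

namespace Pool.Agent.H24.MS

open Pool.Agent.H884R3.Ms Pool.Agent.Helper881.Gp

lemma one_le_of_prime {p d : ℕ} (hp : p.Prime) (h : d = p) : 1 ≤ d := by
  rw [h]; exact hp.one_lt.le

lemma elem_step_prime (p : ℕ) (hp : p.Prime) (f g : RatFunc ℂ) (hf : deg f = p)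
    (h : ElemTransform f g) : deg g = p ∧ Conjugate f g := by
  obtain ⟨h₁, h₂, e1, e2⟩ := h
  have hp0 : p ≠ 0 := hp.ne_zero
  have hd2 : 1 ≤ deg h₂ := by
    by_contra hcon
    have := deg_comp_const h₁ h₂ (by omega)
    rw [← e1, hf] at this
    omega
  have hprod : deg h₂ * deg h₁ = p := by rw [← deg_comp _ _ hd2, ← e1, hf]
  have hd1 : 1 ≤ deg h₁ := by
    rcases Nat.eq_zero_or_pos (deg h₁) with h | h
    · rw [h] at hprod; omega
    · exact h
  refine ⟨?_, ?_⟩
  · rw [e2, deg_comp _ _ hd1, mul_comm, hprod]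
  · have hdvd : deg h₂ = 1 ∨ deg h₂ = p := by
      have : deg h₂ ∣ p := ⟨_, hprod.symm⟩
      exact (Nat.dvd_prime hp).mp this
    rcases hdvd with h | h
    · refine ⟨h₂, h, ?_⟩
      rw [e1, e2, comp_assoc _ _ _ hd1 hd2]
    · have h1 : deg h₁ = 1 := by
        rw [h] at hprod
        exact Nat.eq_of_mul_eq_mul_left hp.pos (by rw [hprod, mul_one])
      obtain ⟨σ, hσ⟩ := Pool.Agent.Helper881.Cen.Hom.exists_end h₁ hd1
      obtain ⟨s, hs⟩ := Pool.Agent.Helper881.Cen.Hom.moebius_of_deg_one σ (by rw [hσ]; exact h1)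
      have hm : deg (s.symm RatFunc.X) = 1 := by
        have := Pool.Agent.Helper881.Cen.Hom.deg_hom σ (s.symm RatFunc.X)
        rw [hs, AlgEquiv.apply_symm_apply, hσ, h1, deg_X] at this
        omega
      refine ⟨s.symm RatFunc.X, hm, ?_⟩
      have k1 : Pool.Agent.Helper881.Gp.comp (s.symm RatFunc.X) h₁ = RatFunc.X := by
        rw [← hσ, Pool.Agent.Helper881.Cen.Hom.comp_hom, hs, AlgEquiv.apply_symm_apply]
      have k2 : Pool.Agent.Helper881.Gp.comp h₁ (s.symm RatFunc.X) = RatFunc.X := by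
        have := Pool.Agent.Helper881.Cen.Hom.comp_hom h₁ (s.symm : RatFunc ℂ →ₐ[ℂ] RatFunc ℂ)
        have e : (s.symm : RatFunc ℂ →ₐ[ℂ] RatFunc ℂ) RatFunc.X = s.symm RatFunc.X := rfl
        rw [e] at this
        rw [this, ← hσ, hs]
        exact AlgEquiv.symm_apply_apply s RatFunc.X
      rw [e1, e2, comp_assoc _ _ _ hd1 hd2, k1, comp_X_left,
        ← comp_assoc _ _ _ hd1 (by omega), k2, comp_X_right]

theorem elem_conj_prime' (p : ℕ) (hp : p.Prime) (f g : RatFunc ℂ) (hf : deg f = p)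
    (h : ElemEquivalent f g) : deg g = p ∧ Conjugate f g := by
  have hp1 := hp.one_lt
  induction h with
  | refl =>
    exact ⟨hf, RatFunc.X, deg_X, by rw [comp_X_left, comp_X_right]⟩
  | tail _ hstep ih =>
    obtain ⟨h1, h2⟩ := ih
    obtain ⟨h3, h4⟩ := elem_step_prime p hp _ _ h1 hstep
    exact ⟨h3, conj_trans _ _ _ (by omega) (by omega) h2 h4⟩

/-- Elementarily equivalent rational functions of prime degree are conjugate. -/
theorem elem_conj_prime (p : ℕ) (hp : p.Prime) (f g : RatFunc ℂ) (hf : deg f = p)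
    (h : ElemEquivalent f g) : Conjugate f g :=
  (elem_conj_prime' p hp f g hf h).2

end Pool.Agent.H24.MS
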