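import Mathlib
import Pool.Graph.R_seed8.H884R3.MsConj

/-!
# Finitely many normalised maps in a conjugacy class

A rational function `f` with fixed points `0`, `1`, `∞` which is conjugate to a given `F` of degree at
least two by a Möbius map `m` is determined by `m`, and `m` by the fixed points `m(0)`, `m(1)`, `m(∞)`
of `F`.
-/

set_option autoImplicit false

open Polynomial

namespace Pool.Agent.H24.MS.FC

open Pool.Agent.H884R3.Ms Pool.Agent.Helper881.Gp

/-- homogenization -/
noncomputable def hom (N : ℕ) (p u v : ℂ[X]) : ℂ[X] :=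
  ∑ i ∈ Finset.range (N + 1), C (p.coeff i) * u ^ i * v ^ (N - i)

theorem ι_C (z : ℂ) : algebraMap ℂ (RatFunc ℂ) z = ι (C z) := by
  unfold ι
  rw [RatFunc.algebraMap_C]
  rfl

theorem aeval_hom (N : ℕ) (p u v : ℂ[X]) (hp : p.natDegree ≤ N) (hv : v ≠ 0) :
    aeval (ι u / ι v) p = ι (hom N p u v) / ι v ^ N := by
  have hv' := ι_ne hv
  rw [aeval_eq_sum_range' (Nat.lt_succ_of_le hp), hom]
  have h1 : ι (∑ i ∈ Finset.range (N + 1), C (p.coeff i) * u ^ i * v ^ (N - i)) =
      ∑ i ∈ Finset.range (N + 1), ι (C (p.coeff i)) * ι u ^ i * ι v ^ (N - i) := by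
    unfold ι
    rw [map_sum]
    refine Finset.sum_congr rfl fun i _ => ?_
    rw [map_mul, map_mul, map_pow, map_pow]
  rw [h1, Finset.sum_div]
  refine Finset.sum_congr rfl fun i hi => ?_
  have hi' : i ≤ N := Nat.lt_succ_iff.1 (Finset.mem_range.1 hi)
  rw [Algebra.smul_def, ι_C, div_pow, eq_div_iff (pow_ne_zero _ hv')]
  have h2 : ι v ^ N = ι v ^ i * ι v ^ (N - i) := by rw [← pow_add]; congr 1; omega
  rw [h2]
  field_simp

theorem eval_hom (N : ℕ) (p u v : ℂ[X]) (x : ℂ) (hp : p.natDegree ≤ N) (hv : v.eval x ≠ 0) :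
    (hom N p u v).eval x = v.eval x ^ N * p.eval (u.eval x / v.eval x) := by
  rw [hom, eval_finsetSum, eval_eq_sum_range' (Nat.lt_succ_of_le hp), Finset.mul_sum]
  refine Finset.sum_congr rfl fun i hi => ?_
  have hi' : i ≤ N := Nat.lt_succ_iff.1 (Finset.mem_range.1 hi)
  have h2 : v.eval x ^ N = v.eval x ^ i * v.eval x ^ (N - i) := by rw [← pow_add]; congr 1; omega
  rw [eval_mul, eval_mul, eval_C, eval_pow, eval_pow, h2, div_pow]
  field_simp

theorem natDegree_term (N i : ℕ) (hi : i ≤ N) (r : ℂ) (u v : ℂ[X]) (hu : u.natDegree ≤ 1)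
    (hv : v.natDegree ≤ 1) : (C r * u ^ i).natDegree ≤ i ∧ (v ^ (N - i)).natDegree ≤ N - i := by
  constructor
  · refine (natDegree_C_mul_le _ _).trans (natDegree_pow_le.trans ?_)
    calc i * u.natDegree ≤ i * 1 := Nat.mul_le_mul_left _ hu
      _ = i := mul_one _
  · refine natDegree_pow_le.trans ?_
    calc (N - i) * v.natDegree ≤ (N - i) * 1 := Nat.mul_le_mul_left _ hv
      _ = N - i := mul_one _

theorem natDegree_hom_le (N : ℕ) (p u v : ℂ[X]) (hu : u.natDegree ≤ 1) (hv : v.natDegree ≤ 1) :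
    (hom N p u v).natDegree ≤ N := by
  unfold hom
  refine natDegree_sum_le_of_forall_le _ _ fun i hi => ?_
  have hi' : i ≤ N := Nat.lt_succ_iff.1 (Finset.mem_range.1 hi)
  have h := natDegree_term N i hi' (p.coeff i) u v hu hv
  refine natDegree_mul_le.trans ?_
  have h1 := h.1
  have h2 := h.2
  omega

theorem coeff_hom (N : ℕ) (p u v : ℂ[X]) (hp : p.natDegree ≤ N) (hu : u.natDegree ≤ 1)
    (hv : v.natDegree ≤ 1) (hv1 : v.coeff 1 ≠ 0) :
    (hom N p u v).coeff N = v.coeff 1 ^ N * p.eval (u.coeff 1 / v.coeff 1) := by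
  rw [hom, finsetSum_coeff, eval_eq_sum_range' (Nat.lt_succ_of_le hp), Finset.mul_sum]
  refine Finset.sum_congr rfl fun i hi => ?_
  have hi' : i ≤ N := Nat.lt_succ_iff.1 (Finset.mem_range.1 hi)
  have h := natDegree_term N i hi' (p.coeff i) u v hu hv
  have e1 : (C (p.coeff i) * u ^ i * v ^ (N - i)).coeff (i + (N - i)) =
      (C (p.coeff i) * u ^ i).coeff i * (v ^ (N - i)).coeff (N - i) :=
    coeff_mul_add_eq_of_natDegree_le h.1 h.2
  rw [Nat.add_sub_cancel' hi'] at e1
  have e2 : (u ^ i).coeff i = u.coeff 1 ^ i := by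
    have := coeff_pow_of_natDegree_le (n := 1) (m := i) hu
    rwa [mul_one] at this
  have e3 : (v ^ (N - i)).coeff (N - i) = v.coeff 1 ^ (N - i) := by
    have := coeff_pow_of_natDegree_le (n := 1) (m := N - i) hv
    rwa [mul_one] at this
  have h2 : v.coeff 1 ^ N = v.coeff 1 ^ i * v.coeff 1 ^ (N - i) := by
    rw [← pow_add]; congr 1; omega
  rw [e1, coeff_C_mul, e2, e3, h2, div_pow]
  field_simp

theorem aeval_ne (x : RatFunc ℂ) (hx : 1 ≤ deg x) (p : ℂ[X]) (hp : p ≠ 0) : aeval x p ≠ 0 := by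
  intro h
  have ht := Pool.Agent.Helper881.Cen.Hom.trans_of_deg x hx
  exact hp ((transcendental_iff.1 ht) p h)

/-- the functional equation as an equation of polynomials -/
theorem func_eq (F m : RatFunc ℂ) (hm : deg m = 1) (A B : ℂ[X]) (hB : B ≠ 0)
    (hf : 1 ≤ deg (ι A / ι B)) (a b c e : ℂ) (hab : m.num = C a * X + C b)
    (hce : m.denom = C c * X + C e) (h : comp m (ι A / ι B) = comp F m) :
    (C a * A + C b * B) * hom (deg F) F.denom m.num m.denom =
      (C c * A + C e * B) * hom (deg F) F.num m.num m.denom := by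
  have hv := RatFunc.denom_ne_zero m
  have hS := RatFunc.denom_ne_zero F
  have hB' := ι_ne hB
  have hv' := ι_ne hv
  have hmm : m = ι m.num / ι m.denom := (RatFunc.num_div_denom m).symm
  have hRN : F.num.natDegree ≤ deg F := le_max_left _ _
  have hSN : F.denom.natDegree ≤ deg F := le_max_right _ _
  have n1 : aeval m F.denom ≠ 0 := aeval_ne m (by omega) _ hS
  have n2 : aeval (ι A / ι B) m.denom ≠ 0 := aeval_ne _ hf _ hv
  have k1 : aeval m F.denom = ι (hom (deg F) F.denom m.num m.denom) / ι m.denom ^ (deg F) := by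
    have := aeval_hom (deg F) F.denom m.num m.denom hSN hv
    rwa [← hmm] at this
  have k2 : aeval m F.num = ι (hom (deg F) F.num m.num m.denom) / ι m.denom ^ (deg F) := by
    have := aeval_hom (deg F) F.num m.num m.denom hRN hv
    rwa [← hmm] at this
  have hmul : ∀ p q : ℂ[X], ι (p * q) = ι p * ι q := fun p q => map_mul _ p q
  have hadd : ∀ p q : ℂ[X], ι (p + q) = ι p + ι q := fun p q => map_add _ p q
  have k3 : aeval (ι A / ι B) m.num = ι (C a * A + C b * B) / ι B := by
    rw [hab, map_add, map_mul, aeval_C, aeval_C, aeval_X, ι_C, ι_C, hadd, hmul, hmul]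
    field_simp
  have k4 : aeval (ι A / ι B) m.denom = ι (C c * A + C e * B) / ι B := by
    rw [hce, map_add, map_mul, aeval_C, aeval_C, aeval_X, ι_C, ι_C, hadd, hmul, hmul]
    field_simp
  unfold Pool.Agent.Helper881.Gp.comp at h
  rw [div_eq_div_iff n2 n1, k1, k2, k3, k4] at h
  have hinj : Function.Injective ι := RatFunc.algebraMap_injective ℂ
  apply hinj
  rw [hmul, hmul]
  have hvN : ι m.denom ^ (deg F) ≠ 0 := pow_ne_zero _ hv'
  field_simp at h
  linear_combination h

/-- a point of the projective line -/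
noncomputable def proj (x y : ℂ) : Option ℂ := if y = 0 then none else some (x / y)

theorem proj_cross {x y x' y' : ℂ} (h : proj x y = proj x' y') : x * y' = x' * y := by
  unfold proj at h
  by_cases hy : y = 0
  · by_cases hy' : y' = 0
    · rw [hy, hy', mul_zero, mul_zero]
    · rw [if_pos hy, if_neg hy'] at h
      exact absurd h (by simp)
  · by_cases hy' : y' = 0
    · rw [if_neg hy, if_pos hy'] at h
      exact absurd h (by simp)
    · rw [if_neg hy, if_neg hy', Option.some.injEq, div_eq_div_iff hy hy'] at h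
      exact h

/-- the fixed points of `F`, and `∞` -/
def Z (F : RatFunc ℂ) : Set (Option ℂ) := insert none (some '' {z : ℂ | z ∈ (fixPoly F).roots})

theorem Z_finite (F : RatFunc ℂ) : (Z F).Finite := by
  refine Set.Finite.insert _ (Set.Finite.image _ ?_)
  refine Set.Finite.subset (Finset.finite_toSet (fixPoly F).roots.toFinset) ?_
  intro z hz
  exact Finset.mem_coe.2 (Multiset.mem_toFinset.2 hz)

theorem fixPoly_ne (F : RatFunc ℂ) (hF : 2 ≤ deg F) : fixPoly F ≠ 0 := by
  intro h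
  unfold fixPoly at h
  have h1 : F.num = X * F.denom := sub_eq_zero.1 h
  have hcop := RatFunc.isCoprime_num_denom F
  rw [h1] at hcop
  have h2 : IsUnit F.denom := by
    have := hcop.of_mul_left_right
    exact isCoprime_self.1 this
  have h3 : F.denom.natDegree = 0 := natDegree_eq_zero_of_isUnit h2
  have h4 : F.num.natDegree = 1 := by
    rw [h1, natDegree_mul X_ne_zero (RatFunc.denom_ne_zero F), natDegree_X, h3]
  unfold deg at hF
  rw [h3, h4] at hF
  norm_num at hF

theorem proj_mem (F : RatFunc ℂ) (hF : 2 ≤ deg F) (x y : ℂ)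
    (h : y ≠ 0 → x * F.denom.eval (x / y) = y * F.num.eval (x / y)) : proj x y ∈ Z F := by
  unfold proj
  by_cases hy : y = 0
  · rw [if_pos hy]
    exact Set.mem_insert _ _
  · rw [if_neg hy]
    refine Set.mem_insert_of_mem _ ⟨x / y, ?_, rfl⟩
    refine (mem_roots (fixPoly_ne F hF)).2 ?_
    unfold fixPoly
    rw [IsRoot.def, eval_sub, eval_mul, eval_X]
    have h1 := h hy
    have h2 : y * F.num.eval (x / y) - x * F.denom.eval (x / y) = 0 := sub_eq_zero.2 h1.symm
    apply mul_left_cancel₀ hy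
    rw [mul_zero, mul_sub, ← mul_assoc, mul_div_cancel₀ _ hy]
    exact h2

/-- the three points -/
noncomputable def T (m : RatFunc ℂ) : Option ℂ × Option ℂ × Option ℂ :=
  (proj (m.num.coeff 0) (m.denom.coeff 0),
    proj (m.num.coeff 1 + m.num.coeff 0) (m.denom.coeff 1 + m.denom.coeff 0),
    proj (m.num.coeff 1) (m.denom.coeff 1))

theorem lin_eq (m : RatFunc ℂ) (hm : deg m = 1) : m.num = C (m.num.coeff 1) * X + C (m.num.coeff 0) ∧
    m.denom = C (m.denom.coeff 1) * X + C (m.denom.coeff 0) := by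
  constructor
  · exact eq_X_add_C_of_natDegree_le_one (show m.num.natDegree ≤ 1 by unfold deg at hm; omega)
  · exact eq_X_add_C_of_natDegree_le_one (show m.denom.natDegree ≤ 1 by unfold deg at hm; omega)

theorem T_inj (m m' : RatFunc ℂ) (hm : deg m = 1) (hm' : deg m' = 1) (h : T m = T m') : m = m' := by
  unfold T at h
  rw [Prod.mk.injEq, Prod.mk.injEq] at h
  obtain ⟨h1, h2, h3⟩ := h
  replace h1 := proj_cross h1
  replace h2 := proj_cross h2
  replace h3 := proj_cross h3
  have key : m.num * m'.denom = m'.num * m.denom := by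
    rw [(lin_eq m hm).1, (lin_eq m hm).2, (lin_eq m' hm').1, (lin_eq m' hm').2]
    generalize m.num.coeff 1 = a at *
    generalize m.num.coeff 0 = b at *
    generalize m.denom.coeff 1 = c at *
    generalize m.denom.coeff 0 = e at *
    generalize m'.num.coeff 1 = a' at *
    generalize m'.num.coeff 0 = b' at *
    generalize m'.denom.coeff 1 = c' at *
    generalize m'.denom.coeff 0 = e' at *
    have g1 := congrArg (C : ℂ → ℂ[X]) h1
    have g2 := congrArg (C : ℂ → ℂ[X]) h2
    have g3 := congrArg (C : ℂ → ℂ[X]) h3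
    simp only [C_mul, C_add] at g1 g2 g3
    linear_combination g1 + X ^ 2 * g3 + X * (g2 - g1 - g3)
  have e1 : m = ι m.num / ι m.denom := (RatFunc.num_div_denom m).symm
  have e2 : m' = ι m'.num / ι m'.denom := (RatFunc.num_div_denom m').symm
  rw [e1, e2, div_eq_div_iff (ι_ne (RatFunc.denom_ne_zero m)) (ι_ne (RatFunc.denom_ne_zero m'))]
  have hmul : ∀ p q : ℂ[X], ι (p * q) = ι p * ι q := fun p q => map_mul _ p q
  rw [← hmul, ← hmul, key]

/-- `m` can be cancelled on the left -/
theorem comp_left_cancel (m f g : RatFunc ℂ) (hm : deg m = 1) (hf : 1 ≤ deg f) (hg : 1 ≤ deg g)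
    (h : comp m f = comp m g) : f = g := by
  obtain ⟨σ, hσ⟩ := Pool.Agent.Helper881.Cen.Hom.exists_end m (by omega)
  obtain ⟨s, hs⟩ := Pool.Agent.Helper881.Cen.Hom.moebius_of_deg_one σ (by rw [hσ]; exact hm)
  obtain ⟨τ, hτ⟩ := Pool.Agent.Helper881.Cen.Hom.exists_end f hf
  obtain ⟨π, hπ⟩ := Pool.Agent.Helper881.Cen.Hom.exists_end g hg
  rw [← hτ, ← hπ, Pool.Agent.Helper881.Cen.Hom.comp_hom, Pool.Agent.Helper881.Cen.Hom.comp_hom,
    ← hσ] at h
  have h1 : (τ.comp σ) RatFunc.X = (π.comp σ) RatFunc.X := h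
  have h2 : τ.comp σ = π.comp σ := Pool.Agent.Helper881.Cen.Hom.hom_ext _ _ h1
  have h3 : σ (s.symm RatFunc.X) = RatFunc.X := by
    rw [hs]
    exact AlgEquiv.apply_symm_apply s RatFunc.X
  have h4 := DFunLike.congr_fun h2 (s.symm RatFunc.X)
  have h5 : τ (σ (s.symm RatFunc.X)) = π (σ (s.symm RatFunc.X)) := h4
  rw [h3, hτ, hπ] at h5
  exact h5

theorem T_mem (F m : RatFunc ℂ) (hF : 2 ≤ deg F) (hm : deg m = 1) (A B : ℂ[X]) (hco : IsCoprime A B)
    (hB : B ≠ 0) (h0 : A.eval 0 = 0) (h1 : A.eval 1 = B.eval 1) (hd : B.natDegree < A.natDegree)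
    (hf : 1 ≤ deg (ι A / ι B)) (h : comp m (ι A / ι B) = comp F m) :
    T m ∈ (Z F) ×ˢ (Z F) ×ˢ (Z F) := by
  obtain ⟨l1, l2⟩ := lin_eq m hm
  have hE := func_eq F m hm A B hB hf _ _ _ _ l1 l2 h
  have hRN : F.num.natDegree ≤ deg F := le_max_left _ _
  have hSN : F.denom.natDegree ≤ deg F := le_max_right _ _
  have hu1 : m.num.natDegree ≤ 1 := by unfold deg at hm; omega
  have hv1 : m.denom.natDegree ≤ 1 := by unfold deg at hm; omega
  have hB0 : B.eval 0 ≠ 0 := by
    intro hb
    obtain ⟨s, t, hst⟩ := hco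
    have := congrArg (eval 0) hst
    rw [eval_add, eval_mul, eval_mul, h0, hb, eval_one] at this
    norm_num at this
  have hB1 : B.eval 1 ≠ 0 := by
    intro hb
    obtain ⟨s, t, hst⟩ := hco
    have := congrArg (eval 1) hst
    rw [eval_add, eval_mul, eval_mul, h1, hb, eval_one] at this
    norm_num at this
  have hA0 : A ≠ 0 := by
    rintro rfl
    simp at hd
  have eu0 : m.num.eval 0 = m.num.coeff 0 := (coeff_zero_eq_eval_zero _).symm
  have ev0 : m.denom.eval 0 = m.denom.coeff 0 := (coeff_zero_eq_eval_zero _).symm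
  have eu1 : m.num.eval 1 = m.num.coeff 1 + m.num.coeff 0 := by
    conv_lhs => rw [l1]
    simp
  have ev1 : m.denom.eval 1 = m.denom.coeff 1 + m.denom.coeff 0 := by
    conv_lhs => rw [l2]
    simp
  unfold T
  refine Set.mk_mem_prod ?_ (Set.mk_mem_prod ?_ ?_)
  · apply proj_mem F hF
    intro hy
    have k := congrArg (eval 0) hE
    rw [eval_mul, eval_mul, eval_hom _ _ _ _ _ hSN (by rw [ev0]; exact hy),
      eval_hom _ _ _ _ _ hRN (by rw [ev0]; exact hy), eu0, ev0] at k
    simp only [eval_add, eval_mul, eval_C, h0, mul_zero, zero_add] at k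
    have hne : B.eval 0 * m.denom.coeff 0 ^ (deg F) ≠ 0 := mul_ne_zero hB0 (pow_ne_zero _ hy)
    apply mul_left_cancel₀ hne
    linear_combination k
  · apply proj_mem F hF
    intro hy
    have k := congrArg (eval 1) hE
    rw [eval_mul, eval_mul, eval_hom _ _ _ _ _ hSN (by rw [ev1]; exact hy),
      eval_hom _ _ _ _ _ hRN (by rw [ev1]; exact hy), eu1, ev1] at k
    simp only [eval_add, eval_mul, eval_C, h1] at k
    have hne : B.eval 1 * (m.denom.coeff 1 + m.denom.coeff 0) ^ (deg F) ≠ 0 :=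
      mul_ne_zero hB1 (pow_ne_zero _ hy)
    apply mul_left_cancel₀ hne
    linear_combination k
  · apply proj_mem F hF
    intro hy
    have k := congrArg (fun q : ℂ[X] => q.coeff (A.natDegree + deg F)) hE
    beta_reduce at k
    have d1 : ∀ s t : ℂ, (C s * A + C t * B).natDegree ≤ A.natDegree := by
      intro s t
      refine (natDegree_add_le _ _).trans (max_le ?_ ?_)
      · exact natDegree_C_mul_le _ _
      · exact (natDegree_C_mul_le _ _).trans hd.le
    have c1 : ∀ s t : ℂ, (C s * A + C t * B).coeff A.natDegree = s * A.leadingCoeff := by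
      intro s t
      rw [coeff_add, coeff_C_mul, coeff_C_mul, coeff_eq_zero_of_natDegree_lt hd, mul_zero, add_zero]
      rfl
    rw [coeff_mul_add_eq_of_natDegree_le (d1 _ _) (natDegree_hom_le _ _ _ _ hu1 hv1),
      coeff_mul_add_eq_of_natDegree_le (d1 _ _) (natDegree_hom_le _ _ _ _ hu1 hv1), c1, c1,
      coeff_hom _ _ _ _ hSN hu1 hv1 hy, coeff_hom _ _ _ _ hRN hu1 hv1 hy] at k
    have hne : A.leadingCoeff * m.denom.coeff 1 ^ (deg F) ≠ 0 :=
      mul_ne_zero (leadingCoeff_ne_zero.2 hA0) (pow_ne_zero _ hy)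
    apply mul_left_cancel₀ hne
    linear_combination k

end Pool.Agent.H24.MS.FC

namespace Pool.Agent.H24.MS

open Pool.Agent.H884R3.Ms Pool.Agent.Helper881.Gp

theorem finite_conj (F : RatFunc ℂ) (hF : 2 ≤ deg F) :
    {f : RatFunc ℂ | (∃ A B : ℂ[X], IsCoprime A B ∧ B ≠ 0 ∧ A.eval 0 = 0 ∧ A.eval 1 = B.eval 1 ∧
      B.natDegree < A.natDegree ∧ f = ι A / ι B) ∧ Conjugate f F}.Finite := by
  classical
  have hdeg : ∀ f m : RatFunc ℂ, deg m = 1 → comp m f = comp F m → 1 ≤ deg f := by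
    intro f m hm h
    by_contra hcon
    have h1 := deg_comp_const m f (by omega)
    rw [h, deg_comp _ _ (by omega), hm] at h1
    omega
  let M : RatFunc ℂ → RatFunc ℂ := fun f => if h : Conjugate f F then h.choose else 0
  have hM : ∀ f, Conjugate f F → deg (M f) = 1 ∧ comp (M f) f = comp F (M f) := by
    intro f h
    simp only [M, dif_pos h]
    exact h.choose_spec
  refine Set.Finite.of_injOn (f := fun f => FC.T (M f)) (t := (FC.Z F) ×ˢ (FC.Z F) ×ˢ (FC.Z F)) ?_ ?_
    ((FC.Z_finite F).prod ((FC.Z_finite F).prod (FC.Z_finite F)))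
  · rintro f ⟨⟨A, B, hco, hB, h0, h1, hd, rfl⟩, hc⟩
    obtain ⟨hm, he⟩ := hM _ hc
    exact FC.T_mem F _ hF hm A B hco hB h0 h1 hd (hdeg _ _ hm he) he
  · rintro f ⟨-, hc⟩ g ⟨-, hc'⟩ h
    obtain ⟨hm, he⟩ := hM _ hc
    obtain ⟨hm', he'⟩ := hM _ hc'
    have h2 : M f = M g := FC.T_inj _ _ hm hm' h
    have h3 := hdeg _ _ hm he
    have h4 := hdeg _ _ hm' he'
    rw [← h2] at he'
    exact FC.comp_left_cancel (M f) f g hm h3 h4 (he.trans he'.symm)

end Pool.Agent.H24.MS
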