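import Pool.Agent.H40.MS.Rh

/-!
# Two lemmas on polynomials: square factors and the Riemann-Hurwitz count with independent linear factors
-/

set_option autoImplicit false

namespace Pool.Agent.H24.MS

open Polynomial Pool.Agent.H40.MS

lemma sq_of_even (N : ℂ[X]) (hN : N ≠ 0) (c : ℂ) (hc : Odd (N.rootMultiplicity c))
    (h : ∀ r, r ≠ c → Even (N.rootMultiplicity r)) :
    ∃ (κ : ℂ) (R : ℂ[X]), κ ≠ 0 ∧ N = C κ * (X - C c) * R ^ 2 := by
  classical
  have hcS : c ∈ N.roots.toFinset := by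
    rw [Multiset.mem_toFinset, ← Multiset.count_pos, count_roots]
    exact hc.pos
  have hsp : N = C N.leadingCoeff * (N.roots.map fun a => X - C a).prod :=
    (IsAlgClosed.splits N).eq_prod_roots
  refine ⟨N.leadingCoeff, ∏ r ∈ N.roots.toFinset, (X - C r) ^ (N.roots.count r / 2),
    leadingCoeff_ne_zero.2 hN, ?_⟩
  have h1 : (N.roots.map fun a => X - C a).prod =
      ∏ r ∈ N.roots.toFinset, (X - C r) ^ (N.roots.count r) :=
    Finset.prod_multiset_map_count _ _
  have h2 : ∏ r ∈ N.roots.toFinset, (X - C r) ^ (N.roots.count r) =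
      ∏ r ∈ N.roots.toFinset, (((X - C r) ^ (N.roots.count r / 2)) ^ 2 *
        if r = c then (X - C c) else 1) := by
    refine Finset.prod_congr rfl fun r _ => ?_
    by_cases hr : r = c
    · subst hr
      rw [if_pos rfl, ← pow_mul, ← pow_succ, count_roots]
      congr 1
      have := Nat.odd_iff.1 hc
      omega
    · rw [if_neg hr, mul_one, ← pow_mul, count_roots]
      congr 1
      have := Nat.even_iff.1 (h r hr)
      omega
  conv_lhs => rw [hsp, h1, h2, Finset.prod_mul_distrib, Finset.prod_pow, Finset.prod_ite_eq',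
    if_pos hcS]
  ring

/-- `rh_contra` with independent linear factors -/
theorem rh_ind (p1 q1 P2 Q2 : ℂ[X]) (h : ℕ) (hp : p1.natDegree = h)
    (hq : q1.natDegree + 1 ≤ h) (hco : IsCoprime (X * p1 ^ 2) (q1 ^ 2))
    (a b c e κ κ' c₁ e₁ c₂ e₂ : ℂ)
    (hdet : a * e - b * c ≠ 0) (ha : a ≠ 0) (hb : b ≠ 0) (hc : c ≠ 0) (he : e ≠ 0)
    (hk : κ ≠ 0) (hk' : κ' ≠ 0) (hc₁ : c₁ ≠ 0) (hc₂ : c₂ ≠ 0)
    (h1 : C a * (X * p1 ^ 2) + C b * q1 ^ 2 = C κ * (C c₁ * X + C e₁) * Q2 ^ 2)
    (h2 : C c * (X * p1 ^ 2) + C e * q1 ^ 2 = C κ' * (C c₂ * X + C e₂) * P2 ^ 2) : False := by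
  set A : ℂ[X] := X * p1 ^ 2 with hA
  set B : ℂ[X] := q1 ^ 2 with hB
  set W : ℂ[X] := derivative A * B - A * derivative B with hW
  have hp0 : p1 ≠ 0 := by
    rintro rfl
    simp at hp
    omega
  have hA0 : A ≠ 0 := mul_ne_zero X_ne_zero (pow_ne_zero _ hp0)
  have hAd : A.natDegree = 2 * h + 1 := by
    rw [hA, natDegree_mul X_ne_zero (pow_ne_zero _ hp0), natDegree_X, natDegree_pow, hp]
    ring
  have hq0 : q1 ≠ 0 := by
    rintro rfl
    rw [hB, zero_pow two_ne_zero, isCoprime_zero_right] at hco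
    have := natDegree_eq_zero_of_isUnit hco
    omega
  have hB0 : B ≠ 0 := pow_ne_zero _ hq0
  have hBd : B.natDegree = 2 * q1.natDegree := by rw [hB, natDegree_pow]
  -- `W ≠ 0`
  have h6 := natDegree_derivative_lt (p := A) (by omega)
  have hAder : derivative A ≠ 0 := by
    intro h0
    have := derivative_eq_zero.1 h0
    omega
  have hW0 : W ≠ 0 := by
    intro h0
    have h3 : derivative A * B = A * derivative B := sub_eq_zero.1 h0
    have h4 : A ∣ derivative A := by
      refine hco.dvd_of_dvd_mul_right ?_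
      rw [h3]; exact dvd_mul_right _ _
    have h5 := natDegree_le_of_dvd h4 hAder
    omega
  -- degree of `W`
  have hWd : W.natDegree ≤ 2 * h + 2 * q1.natDegree := by
    refine (natDegree_sub_le _ _).trans (max_le ?_ ?_)
    · refine natDegree_mul_le.trans ?_
      omega
    · rcases Nat.eq_zero_or_pos B.natDegree with h7 | h7
      · have h8 : derivative B = 0 := derivative_eq_zero.2 h7
        rw [h8, mul_zero, natDegree_zero]
        exact Nat.zero_le _
      · have h8 := natDegree_derivative_lt (p := B) (by omega)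
        refine natDegree_mul_le.trans ?_
        omega
  -- the four divisors
  have d1 : p1 ∣ W := dvd_wr A X p1 B rfl
  have d2 : q1 ∣ W := by
    have := dvd_wr B 1 q1 A (by rw [one_mul])
    have h3 : W = -(derivative B * A - B * derivative A) := by rw [hW]; ring
    rw [h3]
    exact (dvd_neg).2 this
  have d3 : Q2 ∣ W := by
    have := dvd_wr (C a * A + C b * B) _ Q2 B h1
    have h3 : derivative (C a * A + C b * B) * B - (C a * A + C b * B) * derivative B =
        C a * W := by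
      rw [hW, derivative_add, derivative_C_mul, derivative_C_mul]; ring
    rw [h3] at this
    exact (isUnit_C.2 (isUnit_iff_ne_zero.2 ha)).dvd_mul_left.1 this
  have d4 : P2 ∣ W := by
    have := dvd_wr (C c * A + C e * B) _ P2 B h2
    have h3 : derivative (C c * A + C e * B) * B - (C c * A + C e * B) * derivative B =
        C c * W := by
      rw [hW, derivative_add, derivative_C_mul, derivative_C_mul]; ring
    rw [h3] at this
    exact (isUnit_C.2 (isUnit_iff_ne_zero.2 hc)).dvd_mul_left.1 this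
  -- pairwise coprime
  have e1 : p1 ∣ A := ⟨X * p1, by rw [hA]; ring⟩
  have e2 : q1 ∣ B := ⟨q1, by rw [hB]; ring⟩
  have e3 : Q2 ∣ C a * A + C b * B := ⟨C κ * (C c₁ * X + C e₁) * Q2, by rw [h1]; ring⟩
  have e4 : P2 ∣ C c * A + C e * B := ⟨C κ' * (C c₂ * X + C e₂) * P2, by rw [h2]; ring⟩
  have c12 : IsCoprime p1 q1 :=
    (hco.of_isCoprime_of_dvd_left e1).of_isCoprime_of_dvd_right e2
  have c13 : IsCoprime p1 Q2 := by
    have := cop hco (a := 1) (b := 0) (c := a) (e := b) (by simpa using hb)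
    rw [C_1, C_0, one_mul, zero_mul, add_zero] at this
    exact (this.of_isCoprime_of_dvd_left e1).of_isCoprime_of_dvd_right e3
  have c14 : IsCoprime p1 P2 := by
    have := cop hco (a := 1) (b := 0) (c := c) (e := e) (by simpa using he)
    rw [C_1, C_0, one_mul, zero_mul, add_zero] at this
    exact (this.of_isCoprime_of_dvd_left e1).of_isCoprime_of_dvd_right e4
  have c23 : IsCoprime q1 Q2 := by
    have := cop hco (a := 0) (b := 1) (c := a) (e := b) (by simpa using ha)
    rw [C_1, C_0, one_mul, zero_mul, zero_add] at this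
    exact (this.of_isCoprime_of_dvd_left e2).of_isCoprime_of_dvd_right e3
  have c24 : IsCoprime q1 P2 := by
    have := cop hco (a := 0) (b := 1) (c := c) (e := e) (by simpa using hc)
    rw [C_1, C_0, one_mul, zero_mul, zero_add] at this
    exact (this.of_isCoprime_of_dvd_left e2).of_isCoprime_of_dvd_right e4
  have c34 : IsCoprime Q2 P2 :=
    ((cop hco hdet).of_isCoprime_of_dvd_left e3).of_isCoprime_of_dvd_right e4
  obtain ⟨hQ0, hQd⟩ := deg_sq hAd (by omega) ha hc₁ hk h1
  obtain ⟨hP0, hPd⟩ := deg_sq hAd (by omega) hc hc₂ hk' h2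
  have hall : p1 * q1 * Q2 * P2 ∣ W :=
    ((c14.mul_left c24).mul_left c34).mul_dvd ((c13.mul_left c23).mul_dvd (c12.mul_dvd d1 d2) d3)
      d4
  have hdeg := natDegree_le_of_dvd hall hW0
  rw [natDegree_mul (mul_ne_zero (mul_ne_zero hp0 hq0) hQ0) hP0,
    natDegree_mul (mul_ne_zero hp0 hq0) hQ0, natDegree_mul hp0 hq0, hp, hQd, hPd] at hdeg
  omega

theorem rh_gen (p1 q1 R1 R2 : ℂ[X]) (h : ℕ) (hp : p1.natDegree = h)
    (hq : q1.natDegree + 1 ≤ h) (hco : IsCoprime (X * p1 ^ 2) (q1 ^ 2)) (x1 x2 κ κ' : ℂ)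
    (hx : x1 ≠ x2) (h1x : x1 ≠ 0) (h2x : x2 ≠ 0) (hk : κ ≠ 0) (hk' : κ' ≠ 0)
    (h1 : q1 ^ 2 - C x1 * (X * p1 ^ 2) = C κ * (X - C x1) * R1 ^ 2)
    (h2 : q1 ^ 2 - C x2 * (X * p1 ^ 2) = C κ' * (X - C x2) * R2 ^ 2) : False := by
  refine rh_ind p1 q1 R2 R1 h hp hq hco (-x1) 1 (-x2) 1 κ κ' 1 (-x1) 1 (-x2) ?_
    (neg_ne_zero.2 h1x) one_ne_zero (neg_ne_zero.2 h2x) one_ne_zero hk hk' one_ne_zero one_ne_zero
    ?_ ?_
  · intro h0
    apply hx
    linear_combination -h0
  · simp only [C_neg, C_1]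
    linear_combination h1
  · simp only [C_neg, C_1]
    linear_combination h2

end Pool.Agent.H24.MS
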